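import Pool.Agent.Y157.GT.Stm

/-!
# Subfields of `ℚ_p` are discretely valued; transcendental elements of `ℤ_p`
-/

set_option autoImplicit false

open Polynomial Cardinal

namespace Pool.Agent.Y319.GT

open Pool.Agent.Y157.GT

section dvr

variable {p : ℕ} [hp : Fact p.Prime] {k : Type} [Field k] [CharZero k] (q : k →+* ℚ_[p])

/-- the valuation ring of a subfield of `ℚ_p` -/
def Aq : ValuationSubring k where
  carrier := {z | ‖q z‖ ≤ 1}
  mul_mem' := by
    intro a b ha hb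
    show ‖q (a * b)‖ ≤ 1
    rw [map_mul, norm_mul]
    exact mul_le_one₀ ha (norm_nonneg _) hb
  one_mem' := by
    show ‖q 1‖ ≤ 1
    rw [map_one, norm_one]
  add_mem' := by
    intro a b ha hb
    show ‖q (a + b)‖ ≤ 1
    rw [map_add]
    exact (Padic.nonarchimedean _ _).trans (max_le ha hb)
  zero_mem' := by
    show ‖q 0‖ ≤ 1
    rw [map_zero, norm_zero]
    exact zero_le_one
  neg_mem' := by
    intro a ha
    show ‖q (-a)‖ ≤ 1
    rw [map_neg, norm_neg]
    exact ha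
  mem_or_inv_mem' := by
    intro z
    rcases le_total ‖q z‖ 1 with h | h
    · exact Or.inl h
    · refine Or.inr ?_
      show ‖q z⁻¹‖ ≤ 1
      rw [map_inv₀, norm_inv]
      exact inv_le_one_of_one_le₀ h

theorem mem_Aq (z : k) : z ∈ Aq q ↔ ‖q z‖ ≤ 1 := Iff.rfl

theorem isUnit_Aq (a : Aq q) : IsUnit a ↔ ‖q (a : k)‖ = 1 := by
  constructor
  · rintro ⟨u, rfl⟩
    have h1 : ‖q ((u : Aq q) : k)‖ ≤ 1 := (u : Aq q).2
    have h2 : ‖q ((↑u⁻¹ : Aq q) : k)‖ ≤ 1 := (↑u⁻¹ : Aq q).2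
    have h3 : ((u : Aq q) : k) * ((↑u⁻¹ : Aq q) : k) = 1 := by
      have := u.mul_inv
      exact congrArg (fun z : Aq q => (z : k)) this
    have h4 : ‖q ((u : Aq q) : k)‖ * ‖q ((↑u⁻¹ : Aq q) : k)‖ = 1 := by
      rw [← norm_mul, ← map_mul, h3, map_one, norm_one]
    have h5 := norm_nonneg (q ((u : Aq q) : k))
    nlinarith
  · intro h
    have h0 : (a : k) ≠ 0 := by
      intro h0
      rw [h0, map_zero, norm_zero] at h
      exact zero_ne_one h
    have h1 : ‖q ((a : k)⁻¹)‖ ≤ 1 := by rw [map_inv₀, norm_inv, h, inv_one]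
    exact IsUnit.of_mul_eq_one ⟨(a : k)⁻¹, h1⟩ (Subtype.ext (mul_inv_cancel₀ h0))

theorem norm_p : ‖q ((p : Aq q) : k)‖ = (p : ℝ)⁻¹ := by
  have h1 : ((p : Aq q) : k) = (p : k) := by push_cast; rfl
  rw [h1, map_natCast, Padic.norm_p]

theorem norm_pow_form {z : ℚ_[p]} (hz : z ≠ 0) (h1 : ‖z‖ ≤ 1) : ∃ n : ℕ, ‖z‖ = (p : ℝ)⁻¹ ^ n := by
  have hp1 : (1 : ℝ) < p := by exact_mod_cast hp.out.one_lt
  have h2 := Padic.norm_eq_zpow_neg_valuation hz
  have h3 : 0 ≤ z.valuation := by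
    by_contra h
    push Not at h
    rw [h2] at h1
    have : (1 : ℝ) < (p : ℝ) ^ (-z.valuation) := one_lt_zpow₀ hp1 (by omega)
    linarith
  obtain ⟨n, hn⟩ := Int.eq_ofNat_of_zero_le h3
  refine ⟨n, ?_⟩
  rw [h2, hn, zpow_neg, zpow_natCast, inv_pow]

theorem irred_p : Irreducible (p : Aq q) := by
  have hp1 : (1 : ℝ) < p := by exact_mod_cast hp.out.one_lt
  have hp0 : (0 : ℝ) < p := by linarith
  have hi1 : (p : ℝ)⁻¹ < 1 := inv_lt_one_of_one_lt₀ hp1
  have hi0 : 0 < (p : ℝ)⁻¹ := inv_pos.2 hp0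
  refine ⟨?_, ?_⟩
  · rw [isUnit_Aq, norm_p]
    exact hi1.ne
  · intro a b hab
    have h1 : ‖q (a : k)‖ * ‖q (b : k)‖ = (p : ℝ)⁻¹ := by
      rw [← norm_p q, hab, ← norm_mul, ← map_mul]
      rfl
    have ha : q (a : k) ≠ 0 := by
      intro h0
      rw [h0, norm_zero, zero_mul] at h1
      exact hi0.ne h1
    have hb : q (b : k) ≠ 0 := by
      intro h0
      rw [h0, norm_zero, mul_zero] at h1
      exact hi0.ne h1
    obtain ⟨m, hm⟩ := norm_pow_form ha a.2
    obtain ⟨n, hn⟩ := norm_pow_form hb b.2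
    rw [hm, hn, ← pow_add] at h1
    have h2 : m + n = 1 := by
      have := pow_right_injective₀ hi0 hi1.ne (a₁ := m + n) (a₂ := 1) (by simpa using h1)
      exact this
    rw [isUnit_Aq, isUnit_Aq, hm, hn]
    rcases Nat.eq_zero_or_pos m with h | h
    · left; rw [h, pow_zero]
    · right; rw [show n = 0 by omega, pow_zero]

theorem dvr_Aq : IsDiscreteValuationRing (Aq q) := by
  have hp1 : (1 : ℝ) < p := by exact_mod_cast hp.out.one_lt
  have hp0 : (0 : ℝ) < p := by linarith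
  refine IsDiscreteValuationRing.ofHasUnitMulPowIrreducibleFactorization
    ⟨(p : Aq q), irred_p q, fun {a} ha => ?_⟩
  have ha0 : (a : k) ≠ 0 := fun h => ha (Subtype.ext h)
  have hq0 : q (a : k) ≠ 0 := fun h => ha0 (q.injective (by rw [h, map_zero]))
  obtain ⟨n, hn⟩ := norm_pow_form hq0 a.2
  have hpk : ((p : Aq q) : k) ≠ 0 := by
    have h1 : ((p : Aq q) : k) = (p : k) := by push_cast; rfl
    rw [h1]
    exact_mod_cast hp.out.ne_zero
  refine ⟨n, ?_⟩
  -- the unit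
  have hu : ‖q ((a : k) * (((p : Aq q) : k) ^ n)⁻¹)‖ = 1 := by
    rw [map_mul, norm_mul, hn, map_inv₀, norm_inv, map_pow, norm_pow, norm_p]
    exact mul_inv_cancel₀ (pow_ne_zero _ (inv_pos.2 hp0).ne')
  obtain ⟨u, hu'⟩ := (isUnit_Aq q ⟨_, hu.le⟩).2 hu
  refine ⟨u, ?_⟩
  apply Subtype.ext
  show (((p : Aq q) ^ n : Aq q) : k) * ((u : Aq q) : k) = a
  rw [hu']
  show (((p : Aq q) : k)) ^ n * ((a : k) * (((p : Aq q) : k) ^ n)⁻¹) = a
  rw [mul_comm, mul_assoc, inv_mul_cancel₀ (pow_ne_zero n hpk), mul_one]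

theorem max_Aq (a : Aq q) : a ∈ IsLocalRing.maximalIdeal (Aq q) ↔ ‖q (a : k)‖ < 1 := by
  rw [IsLocalRing.mem_maximalIdeal, mem_nonunits_iff, isUnit_Aq]
  exact ⟨fun h => lt_of_le_of_ne a.2 h, fun h => h.ne⟩

/-- the map to `ℤ_p` -/
noncomputable def toZp : Aq q →+* ℤ_[p] where
  toFun a := ⟨q (a : k), a.2⟩
  map_one' := Subtype.ext (by show q _ = _; exact map_one q)
  map_mul' a b := Subtype.ext (by show q _ = _; exact map_mul q _ _)
  map_zero' := Subtype.ext (by show q _ = _; exact map_zero q)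
  map_add' a b := Subtype.ext (by show q _ = _; exact map_add q _ _)

theorem res_Aq : Finite (IsLocalRing.ResidueField (Aq q)) := by
  have hloc : IsLocalHom (toZp q) := by
    constructor
    intro a ha
    rw [PadicInt.isUnit_iff] at ha
    exact (isUnit_Aq q a).2 ha
  have h1 : Finite (IsLocalRing.ResidueField ℤ_[p]) :=
    Finite.of_equiv (ZMod p) (PadicInt.residueField (p := p)).symm.toEquiv
  exact Finite.of_injective _ (IsLocalRing.ResidueField.map (toZp q)).injective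

end dvr

theorem dvrp : S_DVRP := by
  intro p hp k _ _ q
  exact ⟨Aq q, mem_Aq q, dvr_Aq q, res_Aq q, irred_p q, max_Aq q⟩

/-! ### Transcendental elements -/

theorem countable_of_fg (k : Type) [Field k] [CharZero k] (h : (⊤ : IntermediateField ℚ k).FG) :
    Countable k := by
  obtain ⟨S, hS⟩ := h
  have h1 : Countable (MvPolynomial (S : Set k) ℚ) := by
    rw [← Cardinal.mk_le_aleph0_iff]
    refine (MvPolynomial.cardinalMk_le_max).trans ?_
    rw [max_le_iff, max_le_iff]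
    exact ⟨⟨Cardinal.mk_le_aleph0, Cardinal.mk_le_aleph0⟩, le_rfl⟩
  have h2 : Function.Surjective fun rs : MvPolynomial (S : Set k) ℚ × MvPolynomial (S : Set k) ℚ =>
      (MvPolynomial.aeval (fun x : (S : Set k) => (x : k)) rs.1 /
        MvPolynomial.aeval (fun x : (S : Set k) => (x : k)) rs.2 : k) := by
    intro z
    have hz : z ∈ IntermediateField.adjoin ℚ (S : Set k) := by
      rw [hS]
      exact IntermediateField.mem_top
    rw [IntermediateField.mem_adjoin_iff] at hz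
    obtain ⟨r, s, hrs⟩ := hz
    exact ⟨(r, s), hrs.symm⟩
  exact h2.countable

theorem trp : S_TRP := by
  classical
  intro p hp k _ _ hk j c n
  have hc := countable_of_fg k hk
  have hpoly : Countable k[X] := by
    rw [← Cardinal.mk_le_aleph0_iff]
    refine (Polynomial.cardinalMk_le_max).trans ?_
    rw [max_le_iff]
    exact ⟨Cardinal.mk_le_aleph0, le_rfl⟩
  by_contra hcon
  push Not at hcon
  have hp1 : (1 : ℝ) < p := by exact_mod_cast hp.out.one_lt
  have hp0 : (0 : ℝ) < p := by linarith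
  -- the open set
  set s : Set ℚ_[p] := Metric.ball (c + (p : ℚ_[p]) ^ n) ((p : ℝ) ^ (-(n : ℤ))) with hs
  have hpn : ‖(p : ℚ_[p]) ^ n‖ = (p : ℝ) ^ (-(n : ℤ)) := by
    rw [norm_pow, Padic.norm_p, zpow_neg, zpow_natCast, inv_pow]
  have hsub : ∀ δ ∈ s, ‖δ - c‖ = (p : ℝ) ^ (-(n : ℤ)) := by
    intro δ hδ
    rw [hs, Metric.mem_ball, dist_eq_norm] at hδ
    have e : δ - c = (δ - (c + (p : ℚ_[p]) ^ n)) + (p : ℚ_[p]) ^ n := by ring
    rw [e, Padic.add_eq_max_of_ne (by rw [hpn]; exact hδ.ne), hpn]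
    exact max_eq_right hδ.le
  have h1 : 𝔠 ≤ #s := continuum_le_cardinal_of_isOpen ℚ_[p] Metric.isOpen_ball
    ⟨_, Metric.mem_ball_self (by positivity)⟩
  have h2 : s ⊆ ⋃ P : {P : k[X] // P ≠ 0}, {δ | δ ∈ (P.1.map j).roots} := by
    intro δ hδ
    obtain ⟨P, hP, hPδ⟩ := hcon δ (hsub δ hδ)
    rw [Set.mem_iUnion]
    refine ⟨⟨P, hP⟩, ?_⟩
    show δ ∈ (P.map j).roots
    rw [mem_roots ((Polynomial.map_ne_zero_iff j.injective).2 hP), IsRoot.def, eval_map]
    exact hPδ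
  have h3 : s.Countable := by
    refine (Set.countable_iUnion fun P => ?_).mono h2
    have h5 : {δ | δ ∈ (P.1.map j).roots} = ((P.1.map j).roots.toFinset : Set ℚ_[p]) := by
      ext δ
      rw [Finset.mem_coe, Multiset.mem_toFinset]
      exact Iff.rfl
    rw [h5]
    exact Finset.countable_toSet _
  have h4 : #s ≤ ℵ₀ := Cardinal.mk_le_aleph0_iff.2 h3.to_subtype
  exact absurd (h1.trans h4) (not_le.2 Cardinal.aleph0_lt_continuum)

end Pool.Agent.Y319.GT
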